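import Mathlib

set_option autoImplicit false

/-!
# Reduction of the locally connected case to the connected case
-/

namespace Pool.Agent.Q124.HLC

open TopologicalSpace Topology

/-- Every point has arbitrarily small open neighbourhoods whose boundary has small inductive
dimension at most zero. -/
def Ind1 (X : Type) [TopologicalSpace X] : Prop :=
  ∀ x : X, ∀ V : Set X, IsOpen V → x ∈ V → ∃ U : Set X, IsOpen U ∧ x ∈ U ∧ U ⊆ V ∧
    ∀ y : frontier U, ∀ O : Set (frontier U), IsOpen O → y ∈ O →
      ∃ W : Set (frontier U), IsClopen W ∧ y ∈ W ∧ W ⊆ O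

theorem global
    (h : ∀ (Y : Type) [MetricSpace Y] [SeparableSpace Y] [ConnectedSpace Y],
      (∀ s : Set Y, IsConnected s → LocallyConnectedSpace s) → Ind1 Y) :
    ∀ (X : Type) [MetricSpace X] [SeparableSpace X] [LocallyConnectedSpace X],
      (∀ s : Set X, IsConnected s → LocallyConnectedSpace s) → Ind1 X := by
  intro X _ _ _ hX x V hV hxV
  have hsc : SecondCountableTopology X := UniformSpace.secondCountable_of_separable X
  have hKo : IsOpen (connectedComponent x) := isOpen_connectedComponent
  have hKc : IsClosed (connectedComponent x) := isClosed_connectedComponent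
  have hconn : ConnectedSpace (connectedComponent x) :=
    isConnected_iff_connectedSpace.1 isConnected_connectedComponent
  have hoe : IsOpenEmbedding (Subtype.val : connectedComponent x → X) := hKo.isOpenEmbedding_subtypeVal
  have hce : IsClosedEmbedding (Subtype.val : connectedComponent x → X) :=
    hKc.isClosedEmbedding_subtypeVal
  have hloc : ∀ s : Set (connectedComponent x), IsConnected s → LocallyConnectedSpace s := by
    intro s hs
    have h1 : IsConnected ((Subtype.val : connectedComponent x → X) '' s) :=
      hs.image _ continuous_subtype_val.continuousOn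
    have h2 := hX _ h1
    exact (hoe.isEmbedding.homeomorphImage s).isOpenEmbedding.locallyConnectedSpace
  obtain ⟨U, hU, hxU, hUV, hfr⟩ := h (connectedComponent x) hloc ⟨x, mem_connectedComponent⟩
    (Subtype.val ⁻¹' V) (hV.preimage continuous_subtype_val) hxV
  have hUo : IsOpen ((Subtype.val : connectedComponent x → X) '' U) := hoe.isOpenMap _ hU
  have hfreq : (Subtype.val : connectedComponent x → X) '' (frontier U) =
      frontier ((Subtype.val : connectedComponent x → X) '' U) := by
    rw [hU.frontier_eq, hUo.frontier_eq, Set.image_diff Subtype.val_injective,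
      hce.closure_image_eq]
  refine ⟨(Subtype.val : connectedComponent x → X) '' U, hUo, ⟨⟨x, mem_connectedComponent⟩, hxU, rfl⟩,
    ?_, ?_⟩
  · rintro _ ⟨y, hy, rfl⟩
    exact hUV hy
  · let e : frontier U ≃ₜ frontier ((Subtype.val : connectedComponent x → X) '' U) :=
      (hoe.isEmbedding.homeomorphImage (frontier U)).trans (Homeomorph.setCongr hfreq)
    intro y O hO hyO
    obtain ⟨W, hW, hyW, hWO⟩ := hfr (e.symm y) (e ⁻¹' O) (hO.preimage e.continuous)
      (by simpa using hyO)
    refine ⟨e.symm ⁻¹' W, hW.preimage e.symm.continuous, hyW, fun z hz => ?_⟩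
    have h3 := hWO hz
    simpa using h3

end Pool.Agent.Q124.HLC
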